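import Mathlib
import Pool.Agent.H436R3.MainB

/-!
# A smooth orbifold pair `(X, D)` with `-(K_X + D)` ample which is not uniruled

`X = P^2`, and `D = c * (L_1 + ... + L_d)` for `d ≥ 7` lines in general position and a rational
coefficient `c` with `2 / (d - 2) ≤ c < 3 / d`, for instance seven lines with `c = 2 / 5`
(multiplicity `5 / 3`).

Proof: let `γ` be a non-constant morphism `P^1 → P^2` of degree `e` through a very general point.
A derivation `δ` of `ℂ` which kills the coefficients of the lines and moves the point gives the
polynomial `W = det (γ, γ', δ γ) ≠ 0`, of degree at most `3 e - 2`, which vanishes to order at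
least `(∑ t_{a,j}) - 1` at each point `a` over the lines. Hence there are at least
`(d - 6) e + 4 ≥ d - 2` points `a` with some `t_{a,j} = 1`; each of them has coefficient at least
`c` in every admissible orbifold divisor on `P^1`, so the degree of `K_{P^1} + δ` is `≥ 0`.
-/

set_option autoImplicit false

namespace Pool.Agent.Results.MP_a78b9e_ag.NotUniruled

open Pool.Agent.H436R3

/-- For every `d ≥ 7` there is a smooth orbifold pair `(P^2, D)`, where `D` has coefficients
`2 / (d - 2)` along `d` lines in general position, such that `K + D` has negative degree, so that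
it is not pseudo-effective; and no pair `(P^2, D)` with `D` supported on `d` lines in general
position, with coefficients at least `2 / (d - 2)`, is uniruled: through a very general point of
the plane there passes no orbifold rational curve. -/
theorem result : ∀ d : ℕ, 7 ≤ d →
    (∃ P : PlaneOrbifold d, (∀ j, P.c j = (2 : ℚ) / (d - 2)) ∧ P.degKD < 0) ∧
    ∀ P : PlaneOrbifold d, (∀ j, (2 : ℚ) / (d - 2) ≤ P.c j) →
      ¬ P.IsUniruled ∧ VeryGeneral fun x => ¬ P.CurveThrough x :=
  fun d hd => ⟨exists_pair_general d hd, fun P hP =>
    ⟨not_isUniruled (by omega) P hP, veryGeneral_not_curveThrough (by omega) P hP⟩⟩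

end Pool.Agent.Results.MP_a78b9e_ag.NotUniruled
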